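import Pool.Agent.Y674.HY.Stm

/-!
# Trace and norm of a square root of `a (x - X)` modulo `f`
-/

set_option autoImplicit false

namespace Pool.Agent.Y961.HY

open Polynomial NumberField
open Pool.Agent.Y674.HY

/-- the roots of an integer polynomial in an algebraically closed field -/
noncomputable def RtΩ (Ω : Type) [Field Ω] (f : ℤ[X]) : Finset Ω := by
  classical exact (f.map (Int.castRingHom Ω)).roots.toFinset

section

variable {Ω : Type} [Field Ω] [CharZero Ω] {f : ℤ[X]}

theorem map_ne (hf0 : f ≠ 0) : f.map (Int.castRingHom Ω) ≠ 0 := by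
  rw [Ne, Polynomial.map_eq_zero_iff (Int.castRingHom Ω).injective_int]
  exact hf0

theorem mem_RtΩ (hf0 : f ≠ 0) (s : Ω) :
    s ∈ RtΩ Ω f ↔ (f.map (Int.castRingHom Ω)).eval s = 0 := by
  classical
  unfold RtΩ
  rw [Multiset.mem_toFinset, Polynomial.mem_roots (map_ne hf0), Polynomial.IsRoot.def]

theorem nodup (hs : (f.map (Int.castRingHom ℚ)).Separable) :
    (f.map (Int.castRingHom Ω)).roots.Nodup := by
  apply Polynomial.nodup_roots
  have h := hs.map (f := algebraMap ℚ Ω)
  rwa [Polynomial.map_map, RingHom.ext_int ((algebraMap ℚ Ω).comp (Int.castRingHom ℚ))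
    (Int.castRingHom Ω)] at h

theorem card_RtΩ [IsAlgClosed Ω] (hs : (f.map (Int.castRingHom ℚ)).Separable) :
    (RtΩ Ω f).card = f.natDegree := by
  classical
  unfold RtΩ
  rw [Multiset.toFinset_card_of_nodup (nodup hs),
    ← (IsAlgClosed.splits (f.map (Int.castRingHom Ω))).natDegree_eq_card_roots,
    Polynomial.natDegree_map_eq_of_injective (Int.castRingHom Ω).injective_int]

theorem eval_RtΩ [IsAlgClosed Ω] (hs : (f.map (Int.castRingHom ℚ)).Separable) (x : ℤ) :
    ((f.eval x : ℤ) : Ω) = (f.leadingCoeff : Ω) * ∏ s ∈ RtΩ Ω f, ((x : Ω) - s) := by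
  classical
  have h1 := (IsAlgClosed.splits (f.map (Int.castRingHom Ω))).eval_eq_prod_roots (x : Ω)
  have h2 : (f.map (Int.castRingHom Ω)).eval (x : Ω) = ((f.eval x : ℤ) : Ω) := by
    exact Polynomial.eval_map_apply (p := f) (Int.castRingHom Ω) x
  have h3 : (f.map (Int.castRingHom Ω)).leadingCoeff = (f.leadingCoeff : Ω) := by
    rw [Polynomial.leadingCoeff_map_of_injective (Int.castRingHom Ω).injective_int]
    rfl
  rw [h2, h3] at h1
  rw [h1]
  congr 1
  unfold RtΩ
  rw [Finset.prod, Multiset.toFinset_val, Multiset.dedup_eq_self.2 (nodup hs)]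

end

theorem Rt_eq (f : ℤ[X]) : Rt f = RtΩ ℂ f := by
  unfold Rt RtΩ
  rfl

/-- values of `ρ` at the roots -/
theorem sq_eval {K Ω : Type} [Field K] [Field Ω] [CharZero Ω] {f : ℤ[X]} (hf0 : f ≠ 0) (x : ℤ)
    (ρ : K[X]) (hρ : Half K f x ρ) (σ : K →+* Ω) (s : Ω) (hs : s ∈ RtΩ Ω f) :
    ((ρ.map σ).eval s) ^ 2 = (f.leadingCoeff : Ω) * ((x : Ω) - s) := by
  have h1 := Polynomial.map_dvd σ hρ
  rw [Polynomial.map_map, RingHom.ext_int (σ.comp (Int.castRingHom K)) (Int.castRingHom Ω)] at h1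
  obtain ⟨q, hq⟩ := h1
  have h2 := congrArg (Polynomial.eval s) hq
  rw [Polynomial.eval_mul, (mem_RtΩ hf0 s).1 hs, zero_mul] at h2
  simp only [Polynomial.map_sub, Polynomial.map_pow, Polynomial.map_mul,
    Polynomial.map_X, Polynomial.eval_sub, Polynomial.eval_pow, Polynomial.eval_mul,
    Polynomial.eval_X, map_intCast, Polynomial.map_intCast,
    Polynomial.eval_intCast] at h2
  exact sub_eq_zero.1 h2

/-- images of the roots -/
theorem sum_image {Ω Ω' : Type} [Field Ω] [CharZero Ω] [Field Ω'] [CharZero Ω'] [IsAlgClosed Ω]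
    [IsAlgClosed Ω'] {f : ℤ[X]} (hf0 : f ≠ 0) (hs : (f.map (Int.castRingHom ℚ)).Separable)
    (τ : Ω →+* Ω') [DecidableEq Ω'] : RtΩ Ω' f = (RtΩ Ω f).image τ := by
  symm
  apply Finset.eq_of_subset_of_card_le
  · intro t ht
    obtain ⟨s, hs1, rfl⟩ := Finset.mem_image.1 ht
    rw [mem_RtΩ hf0] at hs1 ⊢
    rw [← RingHom.ext_int (τ.comp (Int.castRingHom Ω)) (Int.castRingHom Ω'),
      ← Polynomial.map_map, Polynomial.eval_map_apply, hs1, map_zero]
  · rw [Finset.card_image_of_injective _ τ.injective, card_RtΩ hs, card_RtΩ hs]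

theorem setup : SETUP := by
  classical
  intro d hd f hfd hs x y hxy K _ _ ρ hρ
  have hf0 : f ≠ 0 := by
    rintro rfl
    rw [Polynomial.natDegree_zero] at hfd
    rw [← hfd] at hd
    exact absurd hd (by decide)
  refine ⟨by rw [Rt_eq, card_RtΩ hs, hfd], ?_⟩
  obtain ⟨Ω, hΩ⟩ : ∃ Ω : Type, Ω = AlgebraicClosure K := ⟨_, rfl⟩
  have hchar : CharZero (AlgebraicClosure K) := inferInstance
  have hgal : IsGalois K (AlgebraicClosure K) := IsAlgClosure.isGalois K (AlgebraicClosure K)
  -- the sum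
  obtain ⟨S, hS⟩ : ∃ S, S = RtΩ (AlgebraicClosure K) f := ⟨_, rfl⟩
  obtain ⟨w1, hw1⟩ : ∃ w1, w1 = ∑ s ∈ S, (ρ.map (algebraMap K (AlgebraicClosure K))).eval s :=
    ⟨_, rfl⟩
  obtain ⟨c1, hc1⟩ : ∃ c1, c1 = ∏ s ∈ S, (ρ.map (algebraMap K (AlgebraicClosure K))).eval s :=
    ⟨_, rfl⟩
  have hsq : ∀ s ∈ S, ((ρ.map (algebraMap K (AlgebraicClosure K))).eval s) ^ 2 =
      (f.leadingCoeff : AlgebraicClosure K) * ((x : AlgebraicClosure K) - s) := by
    intro s hs1
    rw [hS] at hs1
    exact sq_eval hf0 x ρ hρ _ s hs1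
  have hrange : w1 ∈ Set.range (algebraMap K (AlgebraicClosure K)) := by
    rw [InfiniteGalois.mem_range_algebraMap_iff_fixed]
    intro τ
    have h1' := sum_image (Ω' := AlgebraicClosure K) hf0 hs (τ : AlgebraicClosure K →+*
      AlgebraicClosure K)
    rw [← hS] at h1'
    have h1 : S = S.image τ := h1'
    have h2 : ∀ s, (ρ.map (algebraMap K (AlgebraicClosure K))).eval (τ s) =
        τ ((ρ.map (algebraMap K (AlgebraicClosure K))).eval s) := by
      intro s
      have h3 := Polynomial.eval_map_apply (p := ρ.map (algebraMap K (AlgebraicClosure K)))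
        (τ : AlgebraicClosure K →+* AlgebraicClosure K) s
      rw [Polynomial.map_map] at h3
      have h4 : (τ : AlgebraicClosure K →+* AlgebraicClosure K).comp
          (algebraMap K (AlgebraicClosure K)) = algebraMap K (AlgebraicClosure K) :=
        RingHom.ext fun a => τ.commutes a
      rw [h4] at h3
      exact h3
    rw [hw1, map_sum]
    conv_rhs => rw [h1]
    rw [Finset.sum_image (fun a _ b _ h => τ.injective h)]
    exact Finset.sum_congr rfl fun s _ => (h2 s).symm
  obtain ⟨w0, hw0⟩ := hrange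
  have hint1 : IsIntegral ℤ w1 := by
    rw [hw1]
    apply IsIntegral.sum
    intro s hs1
    apply IsIntegral.of_pow (n := 2) (by norm_num)
    rw [hsq s hs1, mul_sub]
    apply IsIntegral.sub
    · rw [← Int.cast_mul]
      exact isIntegral_algebraMap (R := ℤ) (A := AlgebraicClosure K)
        (x := f.leadingCoeff * x)
    · have h1 := isIntegral_leadingCoeff_smul f s (by
        rw [hS] at hs1
        have h2 := (mem_RtΩ hf0 s).1 hs1
        rw [Polynomial.eval_map] at h2
        exact h2)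
      rwa [zsmul_eq_mul] at h1
  have hint : IsIntegral ℤ w0 := by
    rw [← hw0] at hint1
    exact (isIntegral_algebraMap_iff (algebraMap K (AlgebraicClosure K)).injective).1 hint1
  -- the product
  obtain ⟨n, hn⟩ : ∃ n : ℤ, c1 = (n : AlgebraicClosure K) := by
    obtain ⟨e, he⟩ := hd
    have h1 : c1 ^ 2 = ((f.leadingCoeff ^ e * y : ℤ) : AlgebraicClosure K) ^ 2 := by
      rw [hc1, ← Finset.prod_pow, Finset.prod_congr rfl hsq, Finset.prod_mul_distrib,
        Finset.prod_const, hS, card_RtΩ hs, hfd, he]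
      have h2 := eval_RtΩ (Ω := AlgebraicClosure K) hs x
      rw [← hxy] at h2
      rw [pow_succ, mul_assoc, ← h2]
      push_cast
      ring
    rcases sq_eq_sq_iff_eq_or_eq_neg.1 h1 with h | h
    · exact ⟨_, h⟩
    · exact ⟨-(f.leadingCoeff ^ e * y), by rw [h]; push_cast; ring⟩
  refine ⟨⟨w0, hint⟩, (n : ℂ), fun σ => ⟨?_, ?_, ?_⟩⟩
  · intro r hr
    rw [Rt_eq] at hr
    exact sq_eval hf0 x ρ hρ σ r hr
  all_goals
    let _ := σ.toAlgebra
    obtain ⟨τ, hτ⟩ : ∃ τ : AlgebraicClosure K →+* ℂ,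
        τ.comp (algebraMap K (AlgebraicClosure K)) = σ := by
      refine ⟨((IsAlgClosed.lift : AlgebraicClosure K →ₐ[K] ℂ) : AlgebraicClosure K →+* ℂ), ?_⟩
      exact RingHom.ext fun a => (IsAlgClosed.lift : AlgebraicClosure K →ₐ[K] ℂ).commutes a
    have h1 := sum_image (Ω' := ℂ) hf0 hs τ
    rw [← hS, ← Rt_eq] at h1
    have h2 : ∀ s, (ρ.map σ).eval (τ s) =
        τ ((ρ.map (algebraMap K (AlgebraicClosure K))).eval s) := by
      intro s
      have h3 := Polynomial.eval_map_apply (p := ρ.map (algebraMap K (AlgebraicClosure K))) τ s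
      rw [Polynomial.map_map, hτ] at h3
      exact h3
  · rw [h1, Finset.sum_image (fun a _ b _ h => τ.injective h), Finset.sum_congr rfl
      (fun s _ => h2 s), ← map_sum, ← hw1, ← hw0]
    exact (DFunLike.congr_fun hτ w0).symm
  · rw [h1, Finset.prod_image (fun a _ b _ h => τ.injective h), Finset.prod_congr rfl
      (fun s _ => h2 s), ← map_prod, ← hc1, hn, map_intCast]

end Pool.Agent.Y961.HY
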